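import Mathlib

namespace Pool.Agent.MP_84d7a8_al

/-- The group of orientation-preserving `C^k` diffeomorphisms of the compact interval `[0,1]`:
increasing bijections of `[0,1]` which, together with their inverses, are `C^k` on `[0,1]`
(one-sided derivatives at the endpoints).  For `k = ⊤` this is the `C^∞` group. -/
def DiffInterval (k : ℕ∞) : Subgroup (Equiv.Perm (Set.Icc (0 : ℝ) 1)) where
  carrier := {f | StrictMono f ∧
    (∃ F : ℝ → ℝ, ContDiffOn ℝ k F (Set.Icc 0 1) ∧ ∀ x : Set.Icc (0 : ℝ) 1, F x = f x) ∧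
    (∃ G : ℝ → ℝ, ContDiffOn ℝ k G (Set.Icc 0 1) ∧ ∀ x : Set.Icc (0 : ℝ) 1, G x = f.symm x)}
  mul_mem' := by
    rintro f g ⟨hf, ⟨F, hF, hFf⟩, ⟨F', hF', hFf'⟩⟩ ⟨hg, ⟨G, hG, hGg⟩, ⟨G', hG', hGg'⟩⟩
    refine ⟨hf.comp hg, ⟨F ∘ G, hF.comp hG ?_, ?_⟩, ⟨G' ∘ F', hG'.comp hF' ?_, ?_⟩⟩
    · intro x hx
      rw [hGg ⟨x, hx⟩]
      exact (g ⟨x, hx⟩).2
    · intro x
      simp only [Function.comp, hGg x, hFf (g x), Equiv.Perm.mul_apply]
    · intro x hx
      rw [hFf' ⟨x, hx⟩]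
      exact (f.symm ⟨x, hx⟩).2
    · intro x
      simp only [Function.comp, hFf' x, hGg' (f.symm x)]
      rfl
  one_mem' := ⟨strictMono_id, ⟨id, contDiffOn_id, fun _ => rfl⟩, ⟨id, contDiffOn_id, fun _ => rfl⟩⟩
  inv_mem' := by
    rintro f ⟨hf, hF, hG⟩
    refine ⟨?_, hG, hF⟩
    intro x y hxy
    apply hf.lt_iff_lt.mp
    simpa using hxy

/-- The group of orientation-preserving `C^k` diffeomorphisms of the circle `ℝ/ℤ`:
bijections of the circle induced by an increasing bijection `F` of `ℝ` with `F (x+1) = F x + 1`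
such that `F` and its inverse are `C^k`.  For `k = ⊤` this is the `C^∞` group. -/
def DiffCircle (k : ℕ∞) : Subgroup (Equiv.Perm (AddCircle (1 : ℝ))) where
  carrier := {f | ∃ F : Equiv.Perm ℝ, StrictMono F ∧ ContDiff ℝ k F ∧ ContDiff ℝ k F.symm ∧
    (∀ x : ℝ, F (x + 1) = F x + 1) ∧
    ∀ x : ℝ, f (x : AddCircle (1 : ℝ)) = ((F x : ℝ) : AddCircle (1 : ℝ))}
  mul_mem' := by
    rintro f g ⟨F, hF, hF1, hF2, hF3, hFf⟩ ⟨G, hG, hG1, hG2, hG3, hGg⟩
    refine ⟨F * G, hF.comp hG, hF1.comp hG1, hG2.comp hF2, ?_, ?_⟩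
    · intro x
      simp only [Equiv.Perm.mul_apply, hG3, hF3]
    · intro x
      simp only [Equiv.Perm.mul_apply, hGg, hFf]
  one_mem' := ⟨1, strictMono_id, contDiff_id, contDiff_id, fun _ => rfl, fun _ => rfl⟩
  inv_mem' := by
    rintro f ⟨F, hF, hF1, hF2, hF3, hFf⟩
    refine ⟨F.symm, ?_, hF2, hF1, ?_, ?_⟩
    · intro x y hxy
      apply hF.lt_iff_lt.mp
      simpa using hxy
    · intro x
      apply F.injective
      rw [hF3]
      simp
    · intro x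
      apply f.injective
      rw [hFf]
      simp

end Pool.Agent.MP_84d7a8_al
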