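import Mathlib

/-!
A Baire category argument: for a generic conjugating map, no alternating word acts trivially.
-/

namespace Pool.Agent.MP_84d7a8_al

open Set Filter Topology

/-- A family of lifts of circle homeomorphisms that can be perturbed locally. -/
structure PertFamily (ι : Type) [DecidableEq ι] where
  φ : (ι → ℝ) → Equiv.Perm ℝ
  cont : Continuous fun p : (ι → ℝ) × ℝ => φ p.1 p.2
  cont' : Continuous fun p : (ι → ℝ) × ℝ => (φ p.1).symm p.2
  add_int : ∀ c z (m : ℤ), φ c (z + m) = φ c z + m
  near : ∀ c z, |φ c z - z| ≤ 1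
  pert : ∀ (ζ : ℝ) (n : ℕ) (ζ' : ℕ → ℝ), (∀ i < n, ∀ m : ℤ, ζ ≠ ζ' i + m) →
    ∃ i₀ : ι, ∀ c τ, (∀ i < n, ∀ m : ℤ, φ (Function.update c i₀ τ) (ζ' i + m) = φ c (ζ' i + m)) ∧
      (τ ≠ c i₀ → φ (Function.update c i₀ τ) ζ ≠ φ c ζ)

/-- A map that is well behaved near `+∞` and has countably many fixed points modulo `ℤ` there. -/
structure GoodLetter (T : ℝ → ℝ) (K : ℝ) : Prop where
  nonneg : 0 ≤ K
  cont : ∀ y, K ≤ y → ContinuousAt T y
  inj : InjOn T (Ici K)
  ge : ∀ y, K ≤ y → y - K ≤ T y
  countable : {y | K ≤ y ∧ ∃ m : ℤ, T y = y + m}.Countable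

variable {ι : Type} [DecidableEq ι] (P : PertFamily ι) {L : Type}

/-- The action of a letter: letters of the second kind are conjugated. -/
def PertFamily.act (kind : L → Bool) (T : L → ℝ → ℝ) (c : ι → ℝ) (l : L) (y : ℝ) : ℝ :=
  if kind l then P.φ c (T l ((P.φ c).symm y)) else T l y

/-- The orbit of a point under the initial segments of a word. -/
def PertFamily.orb (kind : L → Bool) (T : L → ℝ → ℝ) (w : ℕ → L) (c : ι → ℝ) (y : ℝ) : ℕ → ℝ
  | 0 => y
  | i + 1 => P.act kind T c (w i) (PertFamily.orb kind T w c y i)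

theorem PertFamily.symm_add_int (c : ι → ℝ) (z : ℝ) (m : ℤ) :
    (P.φ c).symm (z + m) = (P.φ c).symm z + m := by
  apply (P.φ c).injective
  rw [P.add_int]
  simp

theorem PertFamily.symm_ge (c : ι → ℝ) (y : ℝ) : y - 1 ≤ (P.φ c).symm y := by
  have := abs_le.1 (P.near c ((P.φ c).symm y))
  rw [Equiv.apply_symm_apply] at this
  linarith [this.2]

theorem PertFamily.orb_ge (kind : L → Bool) (T : L → ℝ → ℝ) (K : L → ℝ)
    (hT : ∀ l, GoodLetter (T l) (K l)) (w : ℕ → L) (n : ℕ) (c : ι → ℝ) (y : ℝ)
    (hy : ∑ j ∈ Finset.range n, (K (w j) + 2) ≤ y) (i : ℕ) (hi : i < n) :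
    K (w i) + 1 ≤ P.orb kind T w c y i := by
  have hS : ∀ i < n, ∑ j ∈ Finset.range i, (K (w j) + 2) + (K (w i) + 2) ≤ y := by
    intro i hi
    rw [← Finset.sum_range_succ]
    refine le_trans (Finset.sum_le_sum_of_subset_of_nonneg (Finset.range_mono hi) ?_) hy
    intro j _ _
    linarith [(hT (w j)).nonneg]
  have key : ∀ i ≤ n, y - ∑ j ∈ Finset.range i, (K (w j) + 2) ≤ P.orb kind T w c y i := by
    intro i
    induction i with
    | zero => intro _; simp [PertFamily.orb]
    | succ i ih =>
      intro hi
      have h1 := ih (by omega)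
      have h2 := hS i (by omega)
      rw [Finset.sum_range_succ]
      simp only [PertFamily.orb, PertFamily.act]
      split_ifs
      · have h3 := P.symm_ge c (P.orb kind T w c y i)
        have h4 := (hT (w i)).ge ((P.φ c).symm (P.orb kind T w c y i)) (by linarith)
        have h5 := abs_le.1 (P.near c (T (w i) ((P.φ c).symm (P.orb kind T w c y i))))
        linarith [h5.1]
      · have h4 := (hT (w i)).ge (P.orb kind T w c y i) (by linarith)
        linarith
  linarith [key i hi.le, hS i hi]

theorem PertFamily.open_dense (kind : L → Bool) (T : L → ℝ → ℝ) (K : L → ℝ)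
    (hT : ∀ l, GoodLetter (T l) (K l)) (w : ℕ → L) (n : ℕ) (hn : 0 < n)
    (halt : ∀ i, i + 1 < n → kind (w i) ≠ kind (w (i + 1))) :
    IsOpen {c | ∃ ξ : ℝ, P.orb kind T w c (∑ j ∈ Finset.range n, (K (w j) + 2) + Real.exp ξ) n ≠
      ∑ j ∈ Finset.range n, (K (w j) + 2) + Real.exp ξ} ∧
    Dense {c | ∃ ξ : ℝ, P.orb kind T w c (∑ j ∈ Finset.range n, (K (w j) + 2) + Real.exp ξ) n ≠
      ∑ j ∈ Finset.range n, (K (w j) + 2) + Real.exp ξ} := by
  set X₀ := ∑ j ∈ Finset.range n, (K (w j) + 2) with hX₀
  let X : ℕ → (ι → ℝ) × ℝ → ℝ := fun i p => P.orb kind T w p.1 (X₀ + Real.exp p.2) i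
  have hX0 : ∀ p, X 0 p = X₀ + Real.exp p.2 := fun p => rfl
  have hXs : ∀ i p, X (i + 1) p = P.act kind T p.1 (w i) (X i p) := fun i p => rfl
  have hge : ∀ i < n, ∀ p, K (w i) + 1 ≤ X i p := fun i hi p =>
    P.orb_ge kind T K hT w n p.1 _ (by linarith [Real.exp_pos p.2]) i hi
  have hge' : ∀ i < n, ∀ p c, K (w i) ≤ (P.φ c).symm (X i p) := by
    intro i hi p c
    linarith [hge i hi p, P.symm_ge c (X i p)]
  have hcont : ∀ i ≤ n, Continuous (X i) := by
    intro i
    induction i with
    | zero => intro _; exact continuous_const.add (Real.continuous_exp.comp continuous_snd)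
    | succ i ih =>
      intro hi
      have h1 := ih (by omega)
      rw [continuous_iff_continuousAt]
      intro p
      by_cases hk : kind (w i)
      · have e : X (i + 1) = fun p => P.φ p.1 (T (w i) ((P.φ p.1).symm (X i p))) := by
          funext p
          rw [hXs, PertFamily.act, if_pos hk]
        rw [e]
        have h2 : Continuous fun p : (ι → ℝ) × ℝ => (P.φ p.1).symm (X i p) :=
          P.cont'.comp (continuous_fst.prodMk h1)
        have h3 : ContinuousAt (fun p : (ι → ℝ) × ℝ => T (w i) ((P.φ p.1).symm (X i p))) p :=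
          ContinuousAt.comp (g := T (w i)) ((hT (w i)).cont _ (hge' i (by omega) p _))
            h2.continuousAt
        exact P.cont.continuousAt.comp (continuousAt_fst.prodMk h3)
      · have e : X (i + 1) = fun p => T (w i) (X i p) := by
          funext p
          rw [hXs, PertFamily.act, if_neg hk]
        rw [e]
        exact ContinuousAt.comp (g := T (w i))
          ((hT (w i)).cont _ (by linarith [hge i (by omega) p])) h1.continuousAt
  have hinj : ∀ c, ∀ i ≤ n, Function.Injective fun ξ => X i (c, ξ) := by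
    intro c i
    induction i with
    | zero =>
      intro _ ξ ξ' h
      simpa [hX0] using h
    | succ i ih =>
      intro hi ξ ξ' h
      apply ih (by omega)
      simp only [hXs, PertFamily.act] at h
      split_ifs at h
      · exact (P.φ c).symm.injective ((hT (w i)).inj (hge' i (by omega) _ _) (hge' i (by omega) _ _)
          ((P.φ c).injective h))
      · exact (hT (w i)).inj (show K (w i) ≤ _ by linarith [hge i (by omega) (c, ξ)])
          (show K (w i) ≤ _ by linarith [hge i (by omega) (c, ξ')]) h
  let G : ℕ → ℕ → Set ((ι → ℝ) × ℝ) := fun i j => {p | ∀ m : ℤ, X j p ≠ X i p + m}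
  have hGopen : ∀ i ≤ n, ∀ j ≤ n, IsOpen (G i j) := by
    intro i hi j hj
    have : G i j = (fun p => X j p - X i p) ⁻¹' (range (Int.cast : ℤ → ℝ))ᶜ := by
      ext p
      simp only [G, mem_ofPred_eq, mem_preimage, mem_compl_iff, mem_range, not_exists]
      refine forall_congr' fun m => not_congr ⟨fun h => by linarith, fun h => by linarith⟩
    rw [this]
    exact (Int.isClosedEmbedding_coe_real.isClosed_range.isOpen_compl).preimage
      ((hcont j hj).sub (hcont i hi))
  have hG1 : ∀ j < n, Dense (G j (j + 1)) := by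
    rintro j hj ⟨c, ξ⟩
    have hc : {ξ | (c, ξ) ∉ G j (j + 1)}.Countable := by
      by_cases hk : kind (w j)
      · have hi : Function.Injective fun ξ => (P.φ c).symm (X j (c, ξ)) :=
          (P.φ c).symm.injective.comp (hinj c j hj.le)
        refine ((hT (w j)).countable.preimage_of_injOn hi.injOn).mono ?_
        intro ξ hξ
        simp only [G, mem_ofPred_eq, not_forall, not_not] at hξ
        obtain ⟨m, hm⟩ := hξ
        refine ⟨hge' j hj _ _, m, ?_⟩
        rw [hXs, PertFamily.act, if_pos hk] at hm
        apply (P.φ c).injective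
        rw [P.add_int, Equiv.apply_symm_apply]
        exact hm
      · refine ((hT (w j)).countable.preimage_of_injOn (hinj c j hj.le).injOn).mono ?_
        intro ξ hξ
        simp only [G, mem_ofPred_eq, not_forall, not_not] at hξ
        obtain ⟨m, hm⟩ := hξ
        rw [hXs, PertFamily.act, if_neg hk] at hm
        exact ⟨by linarith [hge j hj (c, ξ)], m, hm⟩
    have hd := hc.dense_compl ℝ ξ
    refine map_mem_closure (f := fun ξ => (c, ξ)) (continuous_const.prodMk continuous_id) hd ?_
    intro ξ hξ
    simpa using hξ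
  let D : ℕ → Set ((ι → ℝ) × ℝ) := fun j => {p | ∀ i' ≤ j, ∀ i < i', p ∈ G i i'}
  have hG2 : ∀ j < n, ∀ i < j, D j ⊆ closure (G i (j + 1)) := by
    rintro j hj i hi ⟨c, ξ⟩ hp
    by_cases hmem : (c, ξ) ∈ G i (j + 1)
    · exact subset_closure hmem
    simp only [G, mem_ofPred_eq, not_forall, not_not] at hmem
    obtain ⟨m, hm⟩ := hmem
    let ζ : ℕ → ℝ := fun i => (P.φ c).symm (X i (c, ξ))
    have hζ : ∀ i, P.φ c (ζ i) = X i (c, ξ) := fun i => Equiv.apply_symm_apply _ _
    obtain ⟨i₀, hi₀⟩ := P.pert (ζ j) j ζ (by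
      intro i' hi' m' h
      apply hp j le_rfl i' hi' m'
      rw [← hζ, h, P.add_int, hζ])
    have hfix : ∀ τ, ∀ i' < j, P.φ (Function.update c i₀ τ) (ζ i') = X i' (c, ξ) := by
      intro τ i' hi'
      have := (hi₀ c τ).1 i' hi' 0
      simpa [hζ] using this
    have hTζ : ∀ i', kind (w i') → T (w i') (ζ i') = ζ (i' + 1) := by
      intro i' hk
      simp only [ζ]
      rw [hXs, PertFamily.act, if_pos hk, Equiv.symm_apply_apply]
    have hA : ∀ τ, ∀ i' < j, X i' (Function.update c i₀ τ, ξ) = X i' (c, ξ) := by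
      intro τ i'
      induction i' with
      | zero => intro _; rfl
      | succ i' ih =>
        intro hi'
        rw [hXs, ih (by omega)]
        by_cases hk : kind (w i')
        · rw [PertFamily.act, if_pos hk, ← hfix τ i' (by omega), Equiv.symm_apply_apply, hTζ _ hk,
            hfix τ _ hi']
        · rw [hXs, PertFamily.act, PertFamily.act, if_neg hk, if_neg hk]
    have hB : ∀ τ, τ ≠ c i₀ → X (j + 1) (Function.update c i₀ τ, ξ) ≠ X (j + 1) (c, ξ) := by
      intro τ hτ
      have hne := (hi₀ c τ).2 hτ
      obtain ⟨j', rfl⟩ : ∃ j', j = j' + 1 := ⟨j - 1, by omega⟩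
      have hk := halt j' hj
      by_cases hk1 : kind (w j')
      · have hk2 : ¬ kind (w (j' + 1)) := fun h => hk (by rw [hk1, h])
        have e1 : X (j' + 1) (Function.update c i₀ τ, ξ) =
            P.φ (Function.update c i₀ τ) (ζ (j' + 1)) := by
          rw [hXs, hA τ j' (by omega), PertFamily.act, if_pos hk1, ← hfix τ j' (by omega),
            Equiv.symm_apply_apply, hTζ _ hk1]
        rw [hXs (j' + 1), hXs (j' + 1), PertFamily.act, PertFamily.act, if_neg hk2, if_neg hk2]
        intro h
        have := (hT _).inj (show K _ ≤ _ by linarith [hge _ hj (Function.update c i₀ τ, ξ)])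
          (show K _ ≤ _ by linarith [hge _ hj (c, ξ)]) h
        rw [e1, ← hζ] at this
        exact hne this
      · have hk2 : kind (w (j' + 1)) := by
          by_contra h
          exact hk (by rw [Bool.eq_false_iff.2 hk1, Bool.eq_false_iff.2 h])
        have e1 : X (j' + 1) (Function.update c i₀ τ, ξ) = X (j' + 1) (c, ξ) := by
          rw [hXs, hXs, hA τ j' (by omega), PertFamily.act, PertFamily.act, if_neg hk1, if_neg hk1]
        have e2 : ζ (j' + 1 + 1) = ζ i + m := by
          simp only [ζ]
          rw [hm, P.symm_add_int]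
        have e3 : X (j' + 1 + 1) (c, ξ) =
            P.φ (Function.update c i₀ τ) (T (w (j' + 1)) (ζ (j' + 1))) := by
          rw [hTζ _ hk2, e2, (hi₀ c τ).1 i hi m, ← e2, hζ]
        rw [e3, hXs (j' + 1), e1, PertFamily.act, if_pos hk2]
        intro h
        have := (hT _).inj (hge' _ hj _ _) (hge' _ hj _ _) ((P.φ _).injective h)
        apply hne
        rw [hζ]
        exact ((Equiv.symm_apply_eq _).1 this).symm
    have hcurve : Continuous fun τ : ℝ => (Function.update c i₀ τ, ξ) :=
      Continuous.prodMk (Continuous.update (f := fun _ : ℝ => c) (g := fun τ : ℝ => τ)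
        continuous_const i₀ continuous_id) continuous_const
    have ht : Tendsto (fun τ : ℝ => (Function.update c i₀ τ, ξ)) (𝓝[≠] (c i₀)) (𝓝 (c, ξ)) := by
      have := hcurve.tendsto (c i₀)
      rw [Function.update_eq_self] at this
      exact this.mono_left nhdsWithin_le_nhds
    refine mem_closure_of_tendsto ht ?_
    have ht2 := ((hcont (j + 1) hj).tendsto (c, ξ)).comp ht
    filter_upwards [ht2.eventually (Metric.ball_mem_nhds _ one_pos), self_mem_nhdsWithin]
      with τ h1 h2 m' hm'
    have h3 := hB τ h2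
    rw [hA τ i hi] at hm'
    simp only [Function.comp, Real.dist_eq] at h1
    rw [hm', hm] at h1 h3
    have h4 : |m' - m| < 1 := by
      have : ((|m' - m| : ℤ) : ℝ) < 1 := by
        push_cast
        rwa [add_sub_add_left_eq_sub] at h1
      exact_mod_cast this
    have h5 : m' = m := by
      rw [abs_lt] at h4
      omega
    exact h3 (by rw [h5])
  have hD : ∀ j ≤ n, IsOpen (D j) ∧ Dense (D j) := by
    intro j
    induction j with
    | zero =>
      intro _
      have : D 0 = univ := by
        ext p
        simp [D]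
      rw [this]
      exact ⟨isOpen_univ, dense_univ⟩
    | succ j ih =>
      intro hj
      obtain ⟨h1, h2⟩ := ih (by omega)
      have key : ∀ k ≤ j + 1, IsOpen (D j ∩ {p | ∀ i < k, p ∈ G i (j + 1)}) ∧
          Dense (D j ∩ {p | ∀ i < k, p ∈ G i (j + 1)}) := by
        intro k
        induction k with
        | zero => intro _; simpa using ⟨h1, h2⟩
        | succ k ihk =>
          intro hk
          obtain ⟨k1, k2⟩ := ihk (by omega)
          have e : D j ∩ {p | ∀ i < k + 1, p ∈ G i (j + 1)} =
              (D j ∩ {p | ∀ i < k, p ∈ G i (j + 1)}) ∩ G k (j + 1) := by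
            ext p
            simp only [mem_inter_iff, mem_ofPred_eq, Nat.forall_lt_succ_right, and_assoc]
          rw [e]
          refine ⟨k1.inter (hGopen k (by omega) _ hj), k2.inter_of_isOpen_left ?_ k1⟩
          rcases Nat.lt_succ_iff_lt_or_eq.1 (show k < j + 1 by omega) with h | rfl
          · exact (h2.mono (hG2 j hj k h)).of_closure
          · exact hG1 k hj
      have e : D (j + 1) = D j ∩ {p | ∀ i < j + 1, p ∈ G i (j + 1)} := by
        ext p
        simp only [D, mem_inter_iff, mem_ofPred_eq]
        constructor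
        · intro h
          exact ⟨fun i' hi' => h i' (by omega), h _ le_rfl⟩
        · rintro ⟨h, h'⟩ i' hi'
          rcases Nat.lt_succ_iff_lt_or_eq.1 (show i' < j + 1 + 1 by omega) with h'' | rfl
          · exact h i' (by omega)
          · exact h'
      rw [e]
      exact key _ le_rfl
  constructor
  · rw [ofPred_exists]
    refine isOpen_iUnion fun ξ => ?_
    exact isOpen_ne_fun ((hcont n le_rfl).comp (continuous_id.prodMk continuous_const))
      continuous_const
  · have h1 : Dense (Prod.fst '' D n) :=
      (Prod.fst_surjective.denseRange).dense_image continuous_fst (hD n le_rfl).2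
    refine h1.mono ?_
    rintro _ ⟨⟨c, ξ⟩, hp, rfl⟩
    refine ⟨ξ, ?_⟩
    have := hp n le_rfl 0 hn 0
    simpa [hX0] using this

/-- For a generic parameter every nonempty alternating word moves some point, along an orbit that
stays in the good region. -/
theorem PertFamily.generic [Countable ι] [Countable L] [Inhabited L] (kind : L → Bool)
    (T : L → ℝ → ℝ) (K : L → ℝ) (hT : ∀ l, GoodLetter (T l) (K l)) :
    ∃ c, ∀ (w : ℕ → L) (n : ℕ), 0 < n → (∀ i, i + 1 < n → kind (w i) ≠ kind (w (i + 1))) →
      ∃ y, (∀ i < n, K (w i) + 1 ≤ P.orb kind T w c y i) ∧ P.orb kind T w c y n ≠ y := by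
  let U : List L → Set (ι → ℝ) := fun l => {c | 0 < l.length →
    (∀ i, i + 1 < l.length → kind (l.getD i default) ≠ kind (l.getD (i + 1) default)) →
    ∃ ξ : ℝ, P.orb kind T (fun i => l.getD i default) c
      (∑ j ∈ Finset.range l.length, (K (l.getD j default) + 2) + Real.exp ξ) l.length ≠
      ∑ j ∈ Finset.range l.length, (K (l.getD j default) + 2) + Real.exp ξ}
  have hU : ∀ l, IsOpen (U l) ∧ Dense (U l) := by
    intro l
    by_cases h1 : 0 < l.length
    · by_cases h2 : ∀ i, i + 1 < l.length →
        kind (l.getD i default) ≠ kind (l.getD (i + 1) default)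
      · have := P.open_dense kind T K hT (fun i => l.getD i default) l.length h1 h2
        simpa only [U, h1, true_implies, eq_true h2] using this
      · have : U l = univ := eq_univ_of_forall fun c _ h => absurd h h2
        rw [this]
        exact ⟨isOpen_univ, dense_univ⟩
    · have : U l = univ := eq_univ_of_forall fun c h => absurd h h1
      rw [this]
      exact ⟨isOpen_univ, dense_univ⟩
  obtain ⟨c, hc⟩ := (dense_iInter_of_isOpen (fun l => (hU l).1) (fun l => (hU l).2)).nonempty
  refine ⟨c, fun w n hn halt => ?_⟩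
  let l : List L := (List.range n).map w
  have hl : l.length = n := by simp [l]
  have hget : ∀ i < n, l.getD i default = w i := by
    intro i hi
    simp [l, hi]
  have horb : ∀ y, ∀ i ≤ n, P.orb kind T (fun i => l.getD i default) c y i = P.orb kind T w c y i := by
    intro y i
    induction i with
    | zero => intro _; rfl
    | succ i ih =>
      intro hi
      simp only [PertFamily.orb]
      rw [ih (by omega), hget i (by omega)]
  obtain ⟨ξ, hξ⟩ := mem_iInter.1 hc l (by omega) (by
    intro i hi
    rw [hl] at hi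
    rw [hget i (by omega), hget _ hi]
    exact halt i hi)
  rw [hl, horb _ n le_rfl, Finset.sum_congr rfl (fun j hj => by
    rw [hget j (Finset.mem_range.1 hj)])] at hξ
  exact ⟨_, fun i hi => P.orb_ge kind T K hT w n c _ (by linarith [Real.exp_pos ξ]) i hi, hξ⟩

end Pool.Agent.MP_84d7a8_al
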