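import Pool.Agent.MP_84d7a8_al.Generic

/-!
A smooth perturbation family.
-/

namespace Pool.Agent.MP_84d7a8_al

open Set Filter Topology Real
open scoped ContDiff

/-- Periodic bump functions. -/
noncomputable def bump (q κ : ℝ) (z : ℝ) : ℝ := expNegInvGlue (cos (2 * π * (z - q)) - κ)

theorem contDiff_bump {N : ℕ∞} (q κ : ℝ) : ContDiff ℝ N (bump q κ) :=
  expNegInvGlue.contDiff.comp (by fun_prop)

theorem bump_add_int (q κ z : ℝ) (m : ℤ) : bump q κ (z + m) = bump q κ z := by
  unfold bump
  rw [show 2 * π * (z + m - q) = 2 * π * (z - q) + m * (2 * π) by ring, cos_add_int_mul_two_pi]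

theorem periodic_iteratedDeriv {f : ℝ → ℝ} (hf : Function.Periodic f 1) (n : ℕ) :
    Function.Periodic (iteratedDeriv n f) 1 := by
  induction n with
  | zero => simpa using hf
  | succ n ih =>
    intro x
    rw [iteratedDeriv_succ, ← deriv_comp_add_const]
    congr 1
    funext y
    exact ih y

theorem exists_bump_bound (q κ : ℝ) (N : ℕ) :
    ∃ M : ℝ, 0 < M ∧ ∀ n ≤ N, ∀ z, |iteratedDeriv n (bump q κ) z| ≤ M := by
  have h1 : ∀ n : ℕ, ∃ M : ℝ, ∀ z, |iteratedDeriv n (bump q κ) z| ≤ M := by
    intro n
    have hp : Function.Periodic (bump q κ) 1 := fun z => by simpa using bump_add_int q κ z 1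
    have := (periodic_iteratedDeriv hp n).isBounded_of_continuous one_ne_zero
      ((contDiff_bump (N := n) q κ).continuous_iteratedDeriv n le_rfl)
    obtain ⟨M, hM⟩ := this.exists_norm_le
    exact ⟨M, fun z => hM _ ⟨z, rfl⟩⟩
  choose M hM using h1
  refine ⟨1 + ∑ n ∈ Finset.range (N + 1), |M n|, by positivity, fun n hn z => ?_⟩
  have := Finset.single_le_sum (f := fun n => |M n|) (fun i _ => abs_nonneg _)
    (Finset.mem_range.2 (Nat.lt_succ_of_le hn))
  linarith [hM n z, le_abs_self (M n)]

theorem exists_pertFamily (N : ℕ) (hN : 1 ≤ N) : ∃ P : PertFamily ℕ, ∀ c,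
    StrictMono (P.φ c) ∧ ContDiff ℝ N (P.φ c) ∧ ContDiff ℝ N (P.φ c).symm := by
  obtain ⟨e, he⟩ := exists_surjective_nat (ℚ × ℚ)
  let β : ℕ → ℝ → ℝ := fun n => bump (e n).1 (e n).2
  choose M hM0 hM using fun n => exists_bump_bound (e n).1 (e n).2 N
  let co : (ℕ → ℝ) → ℕ → ℝ := fun c n => (1 / 2) ^ n / (8 * M n) * arctan (c n)
  have hco : ∀ c n, |co c n| * M n ≤ (1 / 4) * (1 / 2) ^ n := by
    intro c n
    have h1 : |arctan (c n)| ≤ 2 := by
      have := arctan_mem_Ioo (c n)
      rw [abs_le]
      constructor <;> linarith [this.1, this.2, pi_le_four]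
    have h2 := hM0 n
    simp only [co]
    rw [abs_mul, abs_of_pos (by positivity)]
    calc (1 / 2) ^ n / (8 * M n) * |arctan (c n)| * M n = (1 / 2) ^ n / 8 * |arctan (c n)| := by
          field_simp
      _ ≤ (1 / 2) ^ n / 8 * 2 := by gcongr
      _ = _ := by ring
  have hsum : HasSum (fun n : ℕ => (1 / 4 : ℝ) * (1 / 2) ^ n) (1 / 2) := by
    have := hasSum_geometric_two.mul_left (1 / 4)
    norm_num at this ⊢
    exact this
  have hterm : ∀ c n z, ‖co c n * β n z‖ ≤ (1 / 4) * (1 / 2) ^ n := by
    intro c n z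
    rw [Real.norm_eq_abs, abs_mul]
    refine le_trans (mul_le_mul_of_nonneg_left ?_ (abs_nonneg _)) (hco c n)
    simpa using hM n 0 (Nat.zero_le _) z
  have hsummable : ∀ c z, Summable fun n => co c n * β n z := fun c z =>
    Summable.of_norm_bounded hsum.summable (hterm c · z)
  let S : (ℕ → ℝ) → ℝ → ℝ := fun c z => ∑' n, co c n * β n z
  have hS0 : ∀ c z, |S c z| ≤ 1 / 2 := fun c z => tsum_of_norm_bounded hsum (hterm c · z)
  have hSsm : ∀ c, ContDiff ℝ N (S c) := by
    intro c
    refine contDiff_tsum (N := N) (v := fun _ n => (1 / 4) * (1 / 2) ^ n)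
      (fun n => contDiff_const.mul (contDiff_bump _ _)) (fun _ _ => hsum.summable) ?_
    intro k n x hk
    rw [norm_iteratedFDeriv_eq_norm_iteratedDeriv, iteratedDeriv_const_mul_field, Real.norm_eq_abs,
      abs_mul]
    exact le_trans (mul_le_mul_of_nonneg_left (hM n k (by exact_mod_cast hk) x) (abs_nonneg _))
      (hco c n)
  have hβlip : ∀ n x y, |β n y - β n x| ≤ M n * |y - x| := by
    intro n x y
    refine Convex.norm_image_sub_le_of_norm_deriv_le (𝕜 := ℝ) (f := β n) (s := univ)
      (fun z _ => (contDiff_bump (N := 1) _ _).differentiable one_ne_zero z) (fun z _ => ?_)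
      convex_univ (mem_univ x) (mem_univ y)
    simpa using hM n 1 hN z
  have hSlip : ∀ c x y, |S c y - S c x| ≤ 1 / 2 * |y - x| := by
    intro c x y
    simp only [S]
    rw [← (hsummable c y).tsum_sub (hsummable c x)]
    rw [← Real.norm_eq_abs]
    refine tsum_of_norm_bounded (hsum.mul_right |y - x|) fun n => ?_
    rw [← mul_sub, Real.norm_eq_abs, abs_mul]
    calc |co c n| * |β n y - β n x| ≤ |co c n| * (M n * |y - x|) :=
          mul_le_mul_of_nonneg_left (hβlip n x y) (abs_nonneg _)
      _ = |co c n| * M n * |y - x| := by ring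
      _ ≤ _ := mul_le_mul_of_nonneg_right (hco c n) (abs_nonneg _)
  have hmono : ∀ c, StrictMono fun z => z + S c z := by
    intro c x y hxy
    have := abs_le.1 (hSlip c x y)
    rw [abs_of_pos (sub_pos.2 hxy)] at this
    linarith [this.1]
  have hsm : ∀ c, ContDiff ℝ N fun z => z + S c z := fun c => contDiff_id.add (hSsm c)
  have hsurj : ∀ c, Function.Surjective fun z => z + S c z := by
    intro c
    apply (hsm c).continuous.surjective
    · refine tendsto_atTop_mono (fun z => ?_) (tendsto_atTop_add_const_right _ (-1) tendsto_id)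
      have := abs_le.1 (hS0 c z)
      simp only [id]
      linarith [this.1]
    · refine tendsto_atBot_mono (fun z => ?_) (tendsto_atBot_add_const_right _ 1 tendsto_id)
      have := abs_le.1 (hS0 c z)
      simp only [id]
      linarith [this.2]
  let φ : (ℕ → ℝ) → ℝ ≃o ℝ := fun c => (hmono c).orderIsoOfSurjective _ (hsurj c)
  have hφ : ∀ c z, φ c z = z + S c z := fun c z => rfl
  have hcont : Continuous fun p : (ℕ → ℝ) × ℝ => φ p.1 p.2 := by
    simp only [hφ]
    refine continuous_snd.add (continuous_tsum (fun n => ?_) hsum.summable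
      (fun n p => hterm p.1 n p.2))
    refine Continuous.mul ?_ ((contDiff_bump (N := 0) _ _).continuous.comp continuous_snd)
    exact continuous_const.mul (continuous_arctan.comp ((continuous_apply n).comp continuous_fst))
  refine ⟨⟨fun c => (φ c).toEquiv, hcont, ?_, ?_, ?_, ?_⟩, fun c => ⟨hmono c, hsm c, ?_⟩⟩
  · rw [OrderTopology.continuous_iff]
    intro a
    have h1 : Continuous fun p : (ℕ → ℝ) × ℝ => φ p.1 a :=
      hcont.comp (continuous_fst.prodMk continuous_const)
    constructor
    · convert isOpen_lt h1 continuous_snd using 1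
      ext p
      exact (φ p.1).lt_symm_apply
    · convert isOpen_lt continuous_snd h1 using 1
      ext p
      exact (φ p.1).symm_apply_lt
  · intro c z m
    change z + m + S c (z + m) = z + S c z + m
    simp only [S, β, bump_add_int]
    ring
  · intro c z
    change |z + S c z - z| ≤ 1
    rw [add_sub_cancel_left]
    linarith [hS0 c z]
  · intro ζ n ζ' hζ
    let U : Set (ℝ × ℝ) := {p | (∀ i ∈ Finset.range n, cos (2 * π * (ζ' i - p.1)) < p.2) ∧
      p.2 < cos (2 * π * (ζ - p.1))}
    have hU : IsOpen U := by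
      refine IsOpen.inter ?_ (isOpen_lt continuous_snd (by fun_prop))
      have : {p : ℝ × ℝ | ∀ i ∈ Finset.range n, cos (2 * π * (ζ' i - p.1)) < p.2} =
          ⋂ i ∈ Finset.range n, {p : ℝ × ℝ | cos (2 * π * (ζ' i - p.1)) < p.2} := by
        ext p
        simp
      change IsOpen {p : ℝ × ℝ | ∀ i ∈ Finset.range n, cos (2 * π * (ζ' i - p.1)) < p.2}
      rw [this]
      exact isOpen_biInter_finset fun i _ => isOpen_lt (by fun_prop) continuous_snd
    have hne : U.Nonempty := by
      have h1 : ∀ᶠ κ in 𝓝 (1 : ℝ), ∀ i ∈ Finset.range n, cos (2 * π * (ζ' i - ζ)) < κ := by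
        rw [Finset.eventually_all]
        intro i hi
        refine lt_mem_nhds (lt_of_le_of_ne (cos_le_one _) fun h => ?_)
        obtain ⟨m, hm⟩ := (cos_eq_one_iff _).1 h
        apply hζ i (Finset.mem_range.1 hi) (-m)
        have : (m : ℝ) = ζ' i - ζ := by
          apply mul_left_cancel₀ (two_pi_pos.ne')
          linarith
        push_cast
        linarith
      obtain ⟨κ, hκ1, hκ2⟩ := ((h1.filter_mono (nhdsWithin_le_nhds (s := Iio 1))).and
        self_mem_nhdsWithin).exists
      exact ⟨(ζ, κ), hκ1, by simpa using hκ2⟩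
    obtain ⟨r, hr⟩ := (Rat.denseRange_cast.prodMap Rat.denseRange_cast).exists_mem_open hU hne
    obtain ⟨i₀, rfl⟩ := he r
    have hdiff : ∀ c τ z, S (Function.update c i₀ τ) z - S c z =
        (co (Function.update c i₀ τ) i₀ - co c i₀) * β i₀ z := by
      intro c τ z
      simp only [S]
      rw [← (hsummable _ z).tsum_sub (hsummable c z), tsum_eq_single i₀, sub_mul]
      intro j hj
      simp only [co, Function.update_of_ne hj, sub_self]
    refine ⟨i₀, fun c τ => ⟨fun i hi m => ?_, fun hτ h => ?_⟩⟩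
    · change _ + S _ _ = _ + S _ _
      have h0 : β i₀ (ζ' i + m) = 0 := by
        simp only [β, bump_add_int]
        exact expNegInvGlue.zero_of_nonpos (sub_nonpos.2 (hr.1 i (Finset.mem_range.2 hi)).le)
      have := hdiff c τ (ζ' i + m)
      rw [h0, mul_zero, sub_eq_zero] at this
      rw [this]
    · have h0 : 0 < β i₀ ζ := expNegInvGlue.pos_of_pos (sub_pos.2 hr.2)
      have h1 : S (Function.update c i₀ τ) ζ - S c ζ = 0 := by
        have : ζ + S (Function.update c i₀ τ) ζ = ζ + S c ζ := h
        linarith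
      rw [hdiff, mul_eq_zero] at h1
      rcases h1 with h1 | h1
      · simp only [co, Function.update_self] at h1
        rw [← mul_sub, mul_eq_zero] at h1
        rcases h1 with h1 | h1
        · have := hM0 i₀
          exact absurd h1 (by positivity)
        · exact hτ (arctan_injective (sub_eq_zero.1 h1))
      · exact h0.ne' h1
  · have hd : Differentiable ℝ (S c) := (hSsm c).differentiable (by exact_mod_cast (by omega : N ≠ 0))
    refine (φ c).toHomeomorph.contDiff_symm_deriv (f' := fun z => 1 + deriv (S c) z) (fun z => ?_)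
      (fun z => (hasDerivAt_id z).add (hd z).hasDerivAt) (hsm c)
    have hl : LipschitzWith (1 / 2 : NNReal) (S c) := LipschitzWith.of_dist_le_mul fun x y => by
      simpa [Real.dist_eq] using hSlip c y x
    have := norm_deriv_le_of_lipschitz (x₀ := z) hl
    rw [Real.norm_eq_abs, abs_le] at this
    have h2 : ((1 / 2 : NNReal) : ℝ) = 1 / 2 := by norm_num
    linarith [this.1]

end Pool.Agent.MP_84d7a8_al
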