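import Mathlib

/-!
Smoothness of rescaled sums of small perturbations.
-/

namespace Pool.Agent.MP_84d7a8_al

open Set Filter Topology
open scoped ContDiff

variable {E : Type*} [NormedAddCommGroup E] [NormedSpace ℝ E]

theorem contDiff_iteratedDeriv_param (i : ℕ) : ∀ (n : ℕ) (χ : E → ℝ → ℝ),
    ContDiff ℝ (n + i : ℕ) (fun p : E × ℝ => χ p.1 p.2) →
    ContDiff ℝ n (fun p : E × ℝ => iteratedDeriv i (χ p.1) p.2) := by
  induction i with
  | zero => intro n χ h; simpa using h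
  | succ i ih =>
    intro n χ h
    simp only [iteratedDeriv_succ']
    apply ih n (fun ε => deriv (χ ε))
    have h1 : ContDiff ℝ (n + (i + 1) : ℕ)
        (Function.uncurry fun (p : E × ℝ) (y : ℝ) => χ p.1 y) :=
      h.comp ((contDiff_fst.comp contDiff_fst).prodMk contDiff_snd)
    exact h1.fderiv_apply (g := fun p => p.2) (k := fun _ => (1 : ℝ)) contDiff_snd contDiff_const
      (by push_cast; rw [add_assoc])

theorem exists_param_bound [ProperSpace E] (k : ℕ) (χ : E → ℝ → ℝ)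
    (hχ : ContDiff ℝ (k + 1 : ℕ) (fun p : E × ℝ => χ p.1 p.2)) (h0 : ∀ y, χ 0 y = 0) (a b : ℝ)
    (hsupp : ∀ ε y, y ∉ Icc a b → χ ε y = 0) (R : ℝ) :
    ∃ C : ℝ, 0 ≤ C ∧ ∀ i ≤ k, ∀ ε : E, ‖ε‖ ≤ R → ∀ y, |iteratedDeriv i (χ ε) y| ≤ C * ‖ε‖ := by
  have h1 : ∀ i : ℕ, ∃ C : ℝ, 0 ≤ C ∧ (i ≤ k → ∀ ε : E, ‖ε‖ ≤ R → ∀ y,
      |iteratedDeriv i (χ ε) y| ≤ C * ‖ε‖) := by
    intro i
    by_cases hi : i ≤ k
    swap
    · exact ⟨0, le_rfl, fun h => absurd h hi⟩
    have h2 := contDiff_iteratedDeriv_param i 1 χ (hχ.of_le (by exact_mod_cast (by omega)))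
    obtain ⟨K, hK⟩ := (h2.contDiffOn (s := Metric.closedBall 0 R ×ˢ Icc a b)).exists_lipschitzOnWith
      (by simp) ((convex_closedBall _ _).prod (convex_Icc _ _))
      ((isCompact_closedBall _ _).prod isCompact_Icc)
    refine ⟨K, K.2, fun _ ε hε y => ?_⟩
    by_cases hy : y ∈ Icc a b
    · have := hK.dist_le_mul (ε, y) ⟨by simpa using hε, hy⟩ (0, y)
        ⟨by simpa using (norm_nonneg _).trans hε, hy⟩
      have e : χ 0 = fun _ => 0 := funext h0
      simpa [e, Real.dist_eq, Prod.dist_eq] using this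
    · have e : χ ε =ᶠ[𝓝 y] fun _ => 0 := by
        filter_upwards [isClosed_Icc.isOpen_compl.mem_nhds hy] with z hz using hsupp ε z hz
      rw [e.iteratedDeriv_eq]
      simp only [iteratedDeriv_fun_const_zero, abs_zero]
      positivity
  choose C hC0 hC using h1
  refine ⟨∑ i ∈ Finset.range (k + 1), C i, Finset.sum_nonneg fun i _ => hC0 i,
    fun i hi ε hε y => (hC i hi ε hε y).trans (mul_le_mul_of_nonneg_right ?_ (norm_nonneg _))⟩
  exact Finset.single_le_sum (fun i _ => hC0 i) (Finset.mem_range.2 (Nat.lt_succ_of_le hi))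

theorem contDiff_scaled_sum [ProperSpace E] (k : ℕ) (χ : E → ℝ → ℝ)
    (hχ : ContDiff ℝ (k + 1 : ℕ) (fun p : E × ℝ => χ p.1 p.2)) (h0 : ∀ y, χ 0 y = 0) (a b : ℝ)
    (hsupp : ∀ ε y, y ∉ Icc a b → χ ε y = 0) (ε : ℤ → E) (B r Λ : ℝ) (hr0 : 0 ≤ r) (hΛ : 1 ≤ Λ)
    (hr : Λ * r < 1) (hε : ∀ j, ‖ε j‖ ≤ B * r ^ j.natAbs) (s t : ℤ → ℝ)
    (hst : ∀ j, ∀ i ≤ k, |s j| * |t j| ^ i ≤ Λ ^ j.natAbs) :
    ContDiff ℝ k (fun x => ∑' j : ℤ, s j * χ (ε j) (t j * x)) := by
  have hB : 0 ≤ B := by simpa using (norm_nonneg _).trans (hε 0)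
  have hr1 : r ≤ 1 := by nlinarith
  obtain ⟨C, hC0, hC⟩ := exists_param_bound k χ hχ h0 a b hsupp B
  have hsm : ∀ e, ContDiff ℝ k (χ e) := fun e =>
    (hχ.comp (contDiff_const.prodMk contDiff_id)).of_le (by exact_mod_cast Nat.le_succ k)
  have hsum : Summable fun j : ℤ => C * B * (Λ * r) ^ j.natAbs := by
    apply Summable.mul_left
    have := summable_geometric_of_lt_one (by positivity) hr
    apply Summable.of_nat_of_neg <;> simpa using this
  refine contDiff_tsum (N := k) (v := fun _ (j : ℤ) => C * B * (Λ * r) ^ j.natAbs)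
    (fun j => contDiff_const.mul ((hsm _).comp (contDiff_const.mul contDiff_id)))
    (fun _ _ => hsum) ?_
  intro i j x hi
  have hi' : i ≤ k := by exact_mod_cast hi
  rw [norm_iteratedFDeriv_eq_norm_iteratedDeriv, iteratedDeriv_const_mul_field,
    iteratedDeriv_comp_const_mul ((hsm _).of_le (by exact_mod_cast hi')), Real.norm_eq_abs, abs_mul,
    abs_mul, abs_pow, ← mul_assoc]
  have h1 := hC i hi' (ε j) ((hε j).trans (mul_le_of_le_one_right hB (pow_le_one₀ hr0 hr1)))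
    (t j * x)
  calc |s j| * |t j| ^ i * |iteratedDeriv i (χ (ε j)) (t j * x)|
      ≤ Λ ^ j.natAbs * (C * (B * r ^ j.natAbs)) := by
        apply mul_le_mul (hst j i hi') (h1.trans (mul_le_mul_of_nonneg_left (hε j) hC0))
          (abs_nonneg _) (by positivity)
    _ = C * B * (Λ * r) ^ j.natAbs := by rw [mul_pow]; ring

end Pool.Agent.MP_84d7a8_al
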